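import Pool.Agent.Results.MP_d36e13_an.DiscIff

/-!
The former hand-in DiscCase and the negated form of Q1 as consequences of the hand-in DiscIff.
-/

open MeasureTheory Set
open Pool.Agent.Lib.MP_d36e13_an

namespace Pool.Agent.Lib.MP_d36e13_an.Retired

/-- ellipses with axes parallel to the coordinate axes are `C^1` domains -/
theorem isC1Domain_ellipse (c : ℝ × ℝ) {k R : ℝ} (hk : 1 ≤ k) (hR : 0 < R) :
    IsC1Domain {p : ℝ × ℝ | (p.1 - c.1) ^ 2 + k * (p.2 - c.2) ^ 2 < R ^ 2} := by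
  have hF : ContDiff ℝ 1 fun p : ℝ × ℝ => (p.1 - c.1) ^ 2 + k * (p.2 - c.2) ^ 2 - R ^ 2 := by
    fun_prop
  have hop : IsOpen {p : ℝ × ℝ | (p.1 - c.1) ^ 2 + k * (p.2 - c.2) ^ 2 < R ^ 2} :=
    isOpen_lt (by fun_prop) continuous_const
  refine ⟨hop, ?_, ?_, fun p hp => ?_⟩
  · refine (Metric.isBounded_closedBall (x := c) (r := R)).subset fun p hp => ?_
    have hp : (p.1 - c.1) ^ 2 + k * (p.2 - c.2) ^ 2 < R ^ 2 := hp
    rw [Metric.mem_closedBall, Prod.dist_eq, Real.dist_eq, Real.dist_eq, max_le_iff]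
    constructor
    · exact abs_le_of_sq_le_sq (by nlinarith [sq_nonneg (p.2 - c.2)]) hR.le
    · exact abs_le_of_sq_le_sq (by nlinarith [sq_nonneg (p.2 - c.2), sq_nonneg (p.1 - c.1)]) hR.le
  · have hc : Convex ℝ {p : ℝ × ℝ | (p.1 - c.1) ^ 2 + k * (p.2 - c.2) ^ 2 < R ^ 2} := by
      intro p hp q hq a b ha hb hab
      have hp : (p.1 - c.1) ^ 2 + k * (p.2 - c.2) ^ 2 < R ^ 2 := hp
      have hq : (q.1 - c.1) ^ 2 + k * (q.2 - c.2) ^ 2 < R ^ 2 := hq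
      change (a * p.1 + b * q.1 - c.1) ^ 2 + k * (a * p.2 + b * q.2 - c.2) ^ 2 < R ^ 2
      obtain rfl : b = 1 - a := by linarith
      have h1 : (a * p.1 + (1 - a) * q.1 - c.1) ^ 2 + k * (a * p.2 + (1 - a) * q.2 - c.2) ^ 2 ≤
          a * ((p.1 - c.1) ^ 2 + k * (p.2 - c.2) ^ 2) +
            (1 - a) * ((q.1 - c.1) ^ 2 + k * (q.2 - c.2) ^ 2) := by
        nlinarith [mul_nonneg (mul_nonneg ha hb) (sq_nonneg (p.1 - q.1)),
          mul_nonneg (mul_nonneg (mul_nonneg ha hb) (sq_nonneg (p.2 - q.2))) (zero_le_one.trans hk)]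
      refine lt_of_le_of_lt h1 ?_
      rcases le_total ((p.1 - c.1) ^ 2 + k * (p.2 - c.2) ^ 2)
        ((q.1 - c.1) ^ 2 + k * (q.2 - c.2) ^ 2) with h | h
      · nlinarith [mul_le_mul_of_nonneg_left h ha]
      · nlinarith [mul_le_mul_of_nonneg_left h hb]
    have := hc.contractibleSpace ⟨c, by simpa using pow_pos hR 2⟩
    exact SimplyConnectedSpace.ofContractible _
  · have h0 : (p.1 - c.1) ^ 2 + k * (p.2 - c.2) ^ 2 = R ^ 2 :=
      frontier_lt_subset_eq (f := fun p : ℝ × ℝ => (p.1 - c.1) ^ 2 + k * (p.2 - c.2) ^ 2)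
        (g := fun _ => R ^ 2) (by fun_prop) continuous_const hp
    refine ⟨univ, _, isOpen_univ, mem_univ p, hF.contDiffOn, sub_eq_zero.2 h0, fun hz => ?_, ?_⟩
    · have hd : HasDerivAt (fun t : ℝ => p + t • (p - c)) (p - c) 0 := by
        simpa using ((hasDerivAt_id (0 : ℝ)).smul_const (p - c)).const_add p
      have h1 := (hF.differentiable one_ne_zero (p + (0 : ℝ) • (p - c))).hasFDerivAt.comp_hasDerivAt
        (0 : ℝ) hd
      rw [zero_smul, add_zero, hz] at h1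
      have h2 : HasDerivAt (fun t : ℝ => (1 + t) ^ 2 * R ^ 2 - R ^ 2) (2 * R ^ 2) 0 := by
        simpa using ((((hasDerivAt_id (0 : ℝ)).const_add 1).pow 2).mul_const (R ^ 2)).sub_const (R ^ 2)
      have h3 : (fun t : ℝ => (1 + t) ^ 2 * R ^ 2 - R ^ 2) =
          (fun p : ℝ × ℝ => (p.1 - c.1) ^ 2 + k * (p.2 - c.2) ^ 2 - R ^ 2) ∘
            fun t : ℝ => p + t • (p - c) := by
        funext t
        simp only [Function.comp, Prod.fst_add, Prod.snd_add, Prod.smul_fst, Prod.smul_snd,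
          Prod.fst_sub, Prod.snd_sub, smul_eq_mul]
        linear_combination (-(1 + t) ^ 2) * h0
      rw [h3] at h2
      have h4 := h2.unique h1
      simp only [zero_apply] at h4
      nlinarith
    · ext q
      simp only [inter_univ, mem_ofPred_eq, mem_univ, true_and, sub_neg]

/-- the former hand-in DiscCase -/
theorem discCase (Φ : ℝ) (Ω D : Set (ℝ × ℝ)) (c : ℝ × ℝ) (R₀ R₁ : ℝ)
    (hopen : IsOpen Ω) (hbdd : Bornology.IsBounded Ω) (hsc : IsSimplyConnected Ω)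
    (hR₀ : 0 < R₀) (hR₁ : 0 < R₁)
    (hD : D = {p : ℝ × ℝ | (p.1 - c.1) ^ 2 + (p.2 - c.2) ^ 2 < R₀ ^ 2})
    (hsub : closure D ⊆ Ω) (hvol : volume (disc R₁) = volume Ω) :
    (∃ A₁ A₂, IsPotential Φ Ω D A₁ A₂) ∧
    (∃ B₁ B₂, IsPotential Φ (disc R₁) (disc R₀) B₁ B₂) ∧
    ∀ A₁ A₂ B₁ B₂, IsPotential Φ Ω D A₁ A₂ → IsPotential Φ (disc R₁) (disc R₀) B₁ B₂ →
      lam Ω A₁ A₂ ≤ lam (disc R₁) B₁ B₂ := by
  have h1 : IsC1Domain D := by
    rw [hD]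
    simpa only [one_mul] using isC1Domain_ellipse c le_rfl hR₀
  have h2 := (Pool.Agent.Results.MP_d36e13_an.DiscIff.result D h1).out 0 1
  exact h2.1 ⟨c, R₀, hR₀, hD⟩ Φ Ω R₀ R₁ hopen hbdd hsc hsub hR₀ hR₁
    (by rw [hD]; exact (DC.vol_discAt c R₀).symm) hvol

/-- the negated form of Q1, with an ellipse carrying the field -/
theorem posed : ∃ (Φ : ℝ) (Ω D : Set (ℝ × ℝ)) (R₀ R₁ : ℝ),
    IsC1Domain Ω ∧ IsC1Domain D ∧ closure D ⊆ Ω ∧ 0 < R₀ ∧ 0 < R₁ ∧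
    volume (disc R₀) = volume D ∧ volume (disc R₁) = volume Ω ∧
    ∃ A₁ A₂ B₁ B₂, IsPotential Φ Ω D A₁ A₂ ∧ IsPotential Φ (disc R₁) (disc R₀) B₁ B₂ ∧
      lam (disc R₁) B₁ B₂ < lam Ω A₁ A₂ := by
  have h1 := isC1Domain_ellipse (0, 0) (k := 4) (R := 1) (by norm_num) one_pos
  have h2 := ((Pool.Agent.Results.MP_d36e13_an.DiscIff.result _ h1).out 2 0).1
  by_contra hno
  obtain ⟨c, R, -, e⟩ := h2 fun Φ Ω R₀ R₁ a1 a2 a3 a4 a5 a6 A₁ A₂ B₁ B₂ a7 a8 =>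
    not_lt.1 fun h => hno ⟨Φ, Ω, _, R₀, R₁, a1, h1, a2, a3, a4, a5, a6, A₁, A₂, B₁, B₂, a7, a8, h⟩
  have e := Set.ext_iff.1 e
  have e1 := (e (9 / 10, 0)).1 (by norm_num)
  have e2 := (e (-9 / 10, 0)).1 (by norm_num)
  have e3 := mt (e (0, 1 / 2)).2 (by norm_num)
  have e4 := mt (e (0, -1 / 2)).2 (by norm_num)
  simp only [mem_ofPred_eq, not_lt] at e1 e2 e3 e4
  nlinarith

end Pool.Agent.Lib.MP_d36e13_an.Retired
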